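import Pool.Agent.Y734.Stms

/-!
# Job PRIN of the project Y734/QP
-/

set_option autoImplicit false

namespace Pool.Agent.Y734.PRIN

open MvPolynomial AlgebraicIndependent

/-- evaluation through `finSuccEquiv` -/
theorem aeval_finSucc {A : Type*} [CommRing A] [Algebra ℚ A] (X' : Fin 4 → A)
    (P : MvPolynomial (Fin 4) ℚ) :
    aeval X' P = (finSuccEquiv ℚ 3 P).eval₂
      (aeval (fun j : Fin 3 => X' j.succ) : MvPolynomial (Fin 3) ℚ →ₐ[ℚ] A).toRingHom (X' 0) := by
  induction P using MvPolynomial.induction_on with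
  | C a =>
    rw [← MvPolynomial.algebraMap_eq, AlgHom.commutes, AlgEquiv.commutes]
    change _ = Polynomial.eval₂ _ _ (Polynomial.C (MvPolynomial.C a))
    rw [Polynomial.eval₂_C]
    simp
  | add p q hp hq => rw [map_add, map_add, Polynomial.eval₂_add, hp, hq]
  | mul_X p i hp =>
    rw [map_mul, map_mul, Polynomial.eval₂_mul, hp]
    congr 1
    refine Fin.cases ?_ (fun j => ?_) i
    · rw [finSuccEquiv_X_zero, Polynomial.eval₂_X, aeval_X]
    · rw [finSuccEquiv_X_succ, Polynomial.eval₂_C]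
      simp

/-- an irreducible relation divides every relation -/
theorem dvd_of_indep {A : Type*} [CommRing A] [IsDomain A] [Algebra ℚ A] (X' : Fin 4 → A)
    (hind : AlgebraicIndependent ℚ (fun j : Fin 3 => X' j.succ))
    (F G : MvPolynomial (Fin 4) ℚ) (hF : Irreducible F) (hF0 : aeval X' F = 0)
    (hG0 : aeval X' G = 0) : F ∣ G := by
  classical
  rw [← map_dvd_iff (finSuccEquiv ℚ 3)]
  rw [aeval_finSucc] at hF0 hG0
  have hf : Irreducible (finSuccEquiv ℚ 3 F) := (MulEquiv.irreducible_iff _).mpr hF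
  generalize finSuccEquiv ℚ 3 F = f at *
  generalize finSuccEquiv ℚ 3 G = g at *
  set φ : MvPolynomial (Fin 3) ℚ →+* A :=
    (aeval (fun j : Fin 3 => X' j.succ) : MvPolynomial (Fin 3) ℚ →ₐ[ℚ] A).toRingHom with hφ
  have hinj : Function.Injective φ := hind
  have hdeg : f.natDegree ≠ 0 := by
    intro h0
    obtain ⟨r, hr⟩ := Polynomial.natDegree_eq_zero.mp h0
    rw [← hr, Polynomial.eval₂_C] at hF0
    have : r = 0 := hinj (by rw [hF0, map_zero])
    rw [this, map_zero] at hr
    exact hf.ne_zero hr.symm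
  have hprim : f.IsPrimitive := hf.isPrimitive hdeg
  let _ : NormalizedGCDMonoid (MvPolynomial (Fin 3) ℚ) :=
    (inferInstance : Nonempty (NormalizedGCDMonoid (MvPolynomial (Fin 3) ℚ))).some
  rw [hprim.dvd_iff_fraction_map_dvd_fraction_map (FractionRing (MvPolynomial (Fin 3) ℚ))]
  have hirr := (hprim.irreducible_iff_irreducible_map_fraction_map
    (K := FractionRing (MvPolynomial (Fin 3) ℚ))).mp hf
  by_contra hnd
  have hcop := (Irreducible.coprime_iff_not_dvd hirr).mpr hnd
  obtain ⟨a, b, hab⟩ := hcop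
  have hinj' : Function.Injective ((algebraMap A (FractionRing A)).comp φ) :=
    (IsFractionRing.injective A (FractionRing A)).comp hinj
  set ψ : FractionRing (MvPolynomial (Fin 3) ℚ) →+* FractionRing A := IsFractionRing.lift hinj'
    with hψ
  have hcomp : ψ.comp (algebraMap _ _) = (algebraMap A (FractionRing A)).comp φ :=
    RingHom.ext fun r => by
      rw [RingHom.comp_apply, hψ, IsFractionRing.lift_algebraMap]
  have hev : ∀ q : Polynomial (MvPolynomial (Fin 3) ℚ), Polynomial.eval₂ φ (X' 0) q = 0 →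
      Polynomial.eval₂ ψ (algebraMap A (FractionRing A) (X' 0))
        (q.map (algebraMap _ (FractionRing (MvPolynomial (Fin 3) ℚ)))) = 0 := by
    intro q hq
    rw [Polynomial.eval₂_map, hcomp, ← Polynomial.hom_eval₂, hq, map_zero]
  have := congrArg (Polynomial.eval₂ ψ (algebraMap A (FractionRing A) (X' 0))) hab
  rw [Polynomial.eval₂_add, Polynomial.eval₂_mul, Polynomial.eval₂_mul, hev f hF0, hev g hG0,
    mul_zero, mul_zero, add_zero, Polynomial.eval₂_one] at this
  exact zero_ne_one this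

section

variable {Ω : Type} [Field Ω] [Algebra ℚ Ω] (x : Fin 4 → Ω)

/-- the point `(x_i T)` -/
noncomputable def pt (i : Fin 4) : Polynomial Ω := Polynomial.C (x i) * Polynomial.X

theorem aeval_pt_hom (k : ℕ) (G : MvPolynomial (Fin 4) ℚ) (hG : G.IsHomogeneous k) :
    aeval (pt x) G = Polynomial.C (aeval x G) * Polynomial.X ^ k := by
  rw [aeval_def, aeval_def, eval₂_eq', eval₂_eq', map_sum, Finset.sum_mul]
  refine Finset.sum_congr rfl fun d hd => ?_
  have hdeg : ∑ i, d i = k := by
    have := hG (mem_support_iff.mp hd)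
    rw [Finsupp.weight_apply, Finsupp.sum_fintype _ _ (by simp)] at this
    simpa using this
  rw [map_mul, map_prod]
  simp only [pt, mul_pow, Finset.prod_mul_distrib, Finset.prod_pow_eq_pow_sum, hdeg, map_pow]
  rw [IsScalarTower.algebraMap_apply ℚ Ω (Polynomial Ω), Polynomial.algebraMap_eq, mul_assoc]

theorem coeff_aeval_pt (G : MvPolynomial (Fin 4) ℚ) (n : ℕ) :
    (aeval (pt x) G).coeff n = aeval x (homogeneousComponent n G) := by
  conv_lhs => rw [← sum_homogeneousComponent G, map_sum]
  simp only [aeval_pt_hom x _ _ (homogeneousComponent_isHomogeneous _ G),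
    Polynomial.finsetSum_coeff, Polynomial.coeff_C_mul_X_pow]
  rw [Finset.sum_ite_eq]
  split_ifs with h
  · rfl
  · rw [Finset.mem_range, not_lt] at h
    rw [homogeneousComponent_eq_zero _ _ (by omega), map_zero]

theorem irr_of_min (e : ℕ) (F : MvPolynomial (Fin 4) ℚ) (hF : F.IsHomogeneous e) (hF0 : F ≠ 0)
    (hFx : aeval x F = 0)
    (hmin : ∀ (k : ℕ) (G : MvPolynomial (Fin 4) ℚ), G.IsHomogeneous k → G ≠ 0 →
      aeval x G = 0 → e ≤ k) : Irreducible F := by
  have hθ : aeval (pt x) F = 0 := by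
    rw [aeval_pt_hom x e F hF, hFx, map_zero, zero_mul]
  have key : ∀ A B : MvPolynomial (Fin 4) ℚ, F = A * B → aeval (pt x) A = 0 → IsUnit B := by
    intro A B hAB hA
    have hA0 : A ≠ 0 := by
      rintro rfl
      exact hF0 (by rw [hAB, zero_mul])
    have hB0 : B ≠ 0 := by
      rintro rfl
      exact hF0 (by rw [hAB, mul_zero])
    have htop : homogeneousComponent A.totalDegree A ≠ 0 := by
      intro h
      obtain ⟨d, hd, hd'⟩ := A.support.exists_mem_eq_sup (support_nonempty.mpr hA0)
        (fun s => s.sum fun _ e => e)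
      have h1 : coeff d (homogeneousComponent A.totalDegree A) = coeff d A := by
        rw [coeff_homogeneousComponent, if_pos]
        rw [totalDegree, hd']
        rfl
      rw [h, coeff_zero] at h1
      exact (mem_support_iff.mp hd) h1.symm
    have hle := hmin _ _ (homogeneousComponent_isHomogeneous _ A) htop (by
      rw [← coeff_aeval_pt, hA, Polynomial.coeff_zero])
    have htd : F.totalDegree = e := hF.totalDegree hF0
    rw [hAB, totalDegree_mul_of_isDomain hA0 hB0] at htd
    have hB : B.totalDegree = 0 := by omega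
    rw [totalDegree_eq_zero_iff_eq_C] at hB
    rw [hB] at hB0 ⊢
    refine IsUnit.map C (isUnit_iff_ne_zero.mpr fun h => hB0 (by rw [h, map_zero]))
  refine ⟨fun hu => ?_, fun A B hAB => ?_⟩
  · have := hu.map (aeval x)
    rw [hFx] at this
    exact not_isUnit_zero this
  · rw [hAB, map_mul, mul_eq_zero] at hθ
    rcases hθ with h | h
    · exact Or.inr (key A B hAB h)
    · exact Or.inl (key B A (by rw [hAB, mul_comm]) h)

/-- three of the four numbers `x_i T` are algebraically independent -/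
theorem exists_indep (z : Fin 2 → Ω) (hz : AlgebraicIndependent ℚ z)
    (hq : ∀ j, ∃ a b d : Fin 4 → ℚ, (∑ i, algebraMap ℚ Ω (a i) * x i) ≠ 0 ∧
      (∑ i, algebraMap ℚ Ω (a i) * x i) * z j ^ 2 + (∑ i, algebraMap ℚ Ω (b i) * x i) * z j +
        ∑ i, algebraMap ℚ Ω (d i) * x i = 0)
    (F : MvPolynomial (Fin 4) ℚ) (hF : F ≠ 0) (hFx : aeval (pt x) F = 0) :
    ∃ i, AlgebraicIndepOn ℚ (pt x) {i}ᶜ := by
  classical
  obtain ⟨k, hk⟩ : ∃ k, x k ≠ 0 := by
    obtain ⟨a, b, d, h, -⟩ := hq 0
    by_contra h0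
    push Not at h0
    exact h (by simp [h0])
  obtain ⟨S, -, hS⟩ := Finite.exists_le_maximal (p := AlgebraicIndepOn ℚ (pt x)) (a := ∅) (by
    rw [AlgebraicIndepOn, algebraicIndependent_empty_type_iff]
    exact FaithfulSMul.algebraMap_injective ℚ (Polynomial Ω))
  set M := AlgebraicIndependent.matroid ℚ (Polynomial Ω) with hM
  have hcl : Set.range (pt x) ⊆ M.closure (pt x '' S) := by
    rintro _ ⟨j, rfl⟩
    rw [hM, matroid_closure_eq, SetLike.mem_coe, Subalgebra.mem_algebraicClosure]
    by_cases hj : j ∈ S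
    · exact isAlgebraic_algebraMap
        (⟨_, Algebra.subset_adjoin ⟨j, hj, rfl⟩⟩ : Algebra.adjoin ℚ (pt x '' S))
    · by_contra htr
      have h1 := hS.1.insert (i := j) htr
      exact hj (hS.2 h1 (Set.subset_insert _ _) (Set.mem_insert _ _))
  -- linear forms
  have hlin : ∀ a : Fin 4 → ℚ, ∑ i, algebraMap ℚ (Polynomial Ω) (a i) * pt x i =
      Polynomial.C (∑ i, algebraMap ℚ Ω (a i) * x i) * Polynomial.X := by
    intro a
    rw [map_sum, Finset.sum_mul]
    refine Finset.sum_congr rfl fun i _ => ?_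
    rw [pt, map_mul, IsScalarTower.algebraMap_apply ℚ Ω (Polynomial Ω), Polynomial.algebraMap_eq,
      mul_assoc]
  have hmem : ∀ a : Fin 4 → ℚ, ∑ i, algebraMap ℚ (Polynomial Ω) (a i) * pt x i ∈
      Algebra.adjoin ℚ (Set.range (pt x)) := fun a =>
    Subalgebra.sum_mem _ fun i _ => Subalgebra.mul_mem _ (Subalgebra.algebraMap_mem _ _)
      (Algebra.subset_adjoin ⟨i, rfl⟩)
  have hzcl : ∀ j, algebraMap Ω (Polynomial Ω) (z j) ∈ M.closure (pt x '' S) := by
    intro j
    have h1 : algebraMap Ω (Polynomial Ω) (z j) ∈ M.closure (Set.range (pt x)) := by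
      rw [hM, matroid_closure_eq, SetLike.mem_coe, Subalgebra.mem_algebraicClosure]
      obtain ⟨a, b, d, ha, h⟩ := hq j
      let R' := Algebra.adjoin ℚ (Set.range (pt x))
      obtain ⟨a', ha'⟩ : ∃ a' : R', (a' : Polynomial Ω) =
        Polynomial.C (∑ i, algebraMap ℚ Ω (a i) * x i) * Polynomial.X :=
        ⟨⟨_, hmem a⟩, hlin a⟩
      obtain ⟨b', hb'⟩ : ∃ a' : R', (a' : Polynomial Ω) =
        Polynomial.C (∑ i, algebraMap ℚ Ω (b i) * x i) * Polynomial.X :=
        ⟨⟨_, hmem b⟩, hlin b⟩
      obtain ⟨d', hd'⟩ : ∃ a' : R', (a' : Polynomial Ω) =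
        Polynomial.C (∑ i, algebraMap ℚ Ω (d i) * x i) * Polynomial.X :=
        ⟨⟨_, hmem d⟩, hlin d⟩
      let p : Polynomial R' := Polynomial.C a' * Polynomial.X ^ 2 +
        Polynomial.C b' * Polynomial.X + Polynomial.C d'
      refine ⟨p, ?_, ?_⟩
      · intro hp
        have h2 : p.coeff 2 = 0 := by rw [hp, Polynomial.coeff_zero]
        simp only [p, Polynomial.coeff_add, Polynomial.coeff_C_mul, Polynomial.coeff_X_pow,
          Polynomial.coeff_X, Polynomial.coeff_C] at h2
        norm_num at h2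
        have h3 := congrArg (Subtype.val) h2
        simp only [ha', ZeroMemClass.coe_zero] at h3
        rcases mul_eq_zero.mp h3 with h4 | h4
        · exact ha (Polynomial.C_eq_zero.mp h4)
        · exact Polynomial.X_ne_zero h4
      · have e1 : ∀ r : R', Polynomial.aeval (algebraMap Ω (Polynomial Ω) (z j))
            (Polynomial.C r) = (r : Polynomial Ω) := fun r => by
          rw [Polynomial.aeval_C]
          rfl
        simp only [p, map_add, map_mul, map_pow, Polynomial.aeval_X, e1, ha', hb', hd']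
        rw [Polynomial.algebraMap_eq, ← Polynomial.C_pow]
        have h2 := congrArg (fun y => Polynomial.C y * Polynomial.X) h
        simp only [map_add, map_mul, map_zero, zero_mul] at h2
        simp only [map_pow] at h2 ⊢
        linear_combination h2
    have h2 := M.closure_subset_closure hcl h1
    rwa [Matroid.closure_closure] at h2
  have hind : AlgebraicIndependent ℚ
      (Sum.elim (fun _ : Unit => pt x k) (algebraMap Ω (Polynomial Ω) ∘ z)) := by
    refine AlgebraicIndependent.sumElim_comp hz ?_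
    rw [algebraicIndependent_unique_type_iff]
    refine Polynomial.transcendental _ ?_ ?_
    · rw [pt, Polynomial.natDegree_C_mul_X _ hk]
      exact one_ne_zero
    · rw [pt, Polynomial.leadingCoeff_mul, Polynomial.leadingCoeff_C, Polynomial.leadingCoeff_X,
        mul_one]
      exact mem_nonZeroDivisors_of_ne_zero hk
  have hI : M.Indep (Set.range
      (Sum.elim (fun _ : Unit => pt x k) (algebraMap Ω (Polynomial Ω) ∘ z))) := by
    rw [hM, matroid_indep_iff]
    exact hind.to_subtype_range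
  have hIsub : Set.range
      (Sum.elim (fun _ : Unit => pt x k) (algebraMap Ω (Polynomial Ω) ∘ z)) ⊆
        M.closure (pt x '' S) := by
    rintro _ ⟨j | j, rfl⟩
    · exact hcl ⟨k, rfl⟩
    · exact hzcl j
  have h1 := hI.encard_le_eRk_of_subset hIsub
  rw [Matroid.eRk_closure_eq] at h1
  have h2 : (3 : ℕ∞) ≤ S.encard := by
    have h3 := (h1.trans (M.eRk_le_encard _)).trans (Set.encard_image_le _ _)
    refine le_trans ?_ h3
    refine le_trans ?_ hind.injective.encard_range
    rw [ENat.card_eq_coe_fintype_card]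
    norm_num
  have hne : S ≠ Set.univ := by
    intro h
    have h3 := hS.1
    rw [h, AlgebraicIndepOn.univ] at h3
    exact hF (h3 (by rw [hFx, map_zero]))
  obtain ⟨i, hi⟩ : ∃ i, i ∉ S := by
    by_contra h
    push Not at h
    exact hne (Set.eq_univ_of_forall h)
  refine ⟨i, ?_⟩
  have hsub : S ⊆ {i}ᶜ := fun j hj hji => hi (by rw [Set.mem_singleton_iff] at hji; rwa [← hji])
  have hfin : ({i}ᶜ : Set (Fin 4)).Finite := Set.toFinite _
  have heq : S = {i}ᶜ := by
    refine hfin.eq_of_subset_of_encard_le' hsub (le_trans ?_ h2)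
    rw [Set.encard_eq_coe_toFinset_card, Set.toFinset_compl, Set.toFinset_singleton,
      Finset.card_compl, Finset.card_singleton, Fintype.card_fin]
    norm_num
  rw [← heq]
  exact hS.1

end

theorem prin : PrinStmt := by
  intro Ω _ _ x z hz hq hex
  classical
  have hmin : ∃ e, (∃ G : MvPolynomial (Fin 4) ℚ, G.IsHomogeneous e ∧ G ≠ 0 ∧ aeval x G = 0) ∧
      ∀ k, (∃ G : MvPolynomial (Fin 4) ℚ, G.IsHomogeneous k ∧ G ≠ 0 ∧ aeval x G = 0) → e ≤ k :=
    ⟨Nat.find hex, Nat.find_spec hex, fun k hk => Nat.find_min' hex hk⟩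
  obtain ⟨e, ⟨F, hF, hF0, hFx⟩, hmin⟩ := hmin
  have hirr : Irreducible F :=
    irr_of_min x e F hF hF0 hFx fun k G h1 h2 h3 => hmin k ⟨G, h1, h2, h3⟩
  have hFpt : aeval (pt x) F = 0 := by
    rw [aeval_pt_hom x e F hF, hFx, map_zero, zero_mul]
  obtain ⟨i, hi⟩ := exists_indep x z hz hq F hF0 hFpt
  refine ⟨e, F, hF, hirr, hFx, fun k G hG hGx => ?_⟩
  have hGpt : aeval (pt x) G = 0 := by
    rw [aeval_pt_hom x k G hG, hGx, map_zero, zero_mul]
  let σ : Equiv.Perm (Fin 4) := Equiv.swap 0 i
  have hcomp : ∀ P : MvPolynomial (Fin 4) ℚ,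
      aeval (pt x ∘ σ) (renameEquiv ℚ σ.symm P) = aeval (pt x) P := by
    intro P
    rw [renameEquiv_apply, aeval_rename]
    congr 2
    ext j
    simp
  have hdvd := dvd_of_indep (pt x ∘ σ) (by
    have := hi.comp (fun j : Fin 3 => (⟨σ j.succ, by
      intro h
      rw [Set.mem_singleton_iff] at h
      have h0 : σ 0 = i := Equiv.swap_apply_left _ _
      rw [← h0] at h
      exact Fin.succ_ne_zero j (σ.injective h)⟩ : ({i}ᶜ : Set (Fin 4)))) (by
        intro j j' h
        have h' := congrArg Subtype.val h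
        exact Fin.succ_injective _ (σ.injective h'))
    exact this) (renameEquiv ℚ σ.symm F) (renameEquiv ℚ σ.symm G)
    ((MulEquiv.irreducible_iff _).mpr hirr) (by rw [hcomp, hFpt]) (by rw [hcomp, hGpt])
  exact (map_dvd_iff _).mp hdvd

end Pool.Agent.Y734.PRIN
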